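import Pool.Statements.S04009
import Pool.Agent.H535R3.JY

set_option autoImplicit false
open Filter Topology
open Pool Pool.MP_1f2107_an

namespace Pool.Agent.S04009

/-- If `b ≤ 0` then a rotation number of a solution is at most `0`. -/
lemma rho_nonpos {b a ε : ℝ} (hb : b ≤ 0) {φ : ℝ → ℝ} (hφ : H535R3.Sol b a ε φ) {ρ : ℝ}
    (hρ : Tendsto (fun t : ℝ => φ t / t) atTop (𝓝 ρ)) : ρ ≤ 0 := by
  set χ : ℝ → ℝ := fun t => -φ (t + Real.pi) with hχd
  have hχ : H535R3.Sol (-b) a ε χ := by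
    intro t
    have h := ((hφ (t + Real.pi)).comp_add_const t Real.pi).neg
    refine h.congr_deriv ?_
    simp only [Real.cos_add_pi, hχd, Real.sin_neg]
    ring
  obtain ⟨m, hm1, -⟩ := H535R3.exists_shift (φ 0 + 1) (χ 0)
  have hχ2 := hχ.add_two_pi m
  have hlt : ∀ t : ℝ, 0 < t → φ t < χ t + 2 * Real.pi * m := by
    intro t ht
    rcases hb.lt_or_eq with h | h
    · exact hφ.lt_of_b_lt hχ2 (by linarith) (by linarith) ht
    · have hb2 : -b = b := by rw [h]; simp
      rw [hb2] at hχ2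
      exact hφ.lt_of_lt hχ2 (s := 0) (by linarith) t
  -- limits
  have h2 : Tendsto (fun t : ℝ => t + Real.pi) atTop atTop :=
    tendsto_atTop_add_const_right _ _ tendsto_id
  have h3 := hρ.comp h2
  have h4 : Tendsto (fun t : ℝ => (t + Real.pi) / t) atTop (𝓝 1) := by
    have : Tendsto (fun t : ℝ => 1 + Real.pi / t) atTop (𝓝 (1 + 0)) :=
      tendsto_const_nhds.add (tendsto_const_nhds.div_atTop tendsto_id)
    rw [add_zero] at this
    refine this.congr' ?_
    filter_upwards [eventually_gt_atTop (0:ℝ)] with t ht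
    field_simp
  have h5 := (h3.mul h4).neg
  rw [mul_one] at h5
  have h6 : Tendsto (fun t : ℝ => (2 * Real.pi * m) / t) atTop (𝓝 0) :=
    tendsto_const_nhds.div_atTop tendsto_id
  have h7 := h5.add h6
  rw [add_zero] at h7
  have h8 : ρ ≤ -ρ := by
    refine le_of_tendsto_of_tendsto hρ h7 ?_
    filter_upwards [eventually_gt_atTop (0:ℝ)] with t ht
    have hp : t + Real.pi ≠ 0 := by positivity
    have h9 := hlt t ht
    have h10 : -(((fun t => φ t / t) ∘ fun t => t + Real.pi) t * ((t + Real.pi) / t))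
        + 2 * Real.pi * m / t = (χ t + 2 * Real.pi * m) / t := by
      simp only [Function.comp, hχd]
      field_simp
    rw [h10]
    exact div_le_div_of_nonneg_right h9.le ht.le
  linarith

/-- For every ω>0, integer r≥1 and real A, no solution of φ' = −sin φ + ω(r−2) + A cos(ωt) has rotation number φ(t)/(ωt) → r; i.e. the phase-lock area L_r misses the line B = ω(r−2). -/
theorem result :
    ∀ ω : ℝ, 0 < ω → ∀ r : ℕ, 1 ≤ r → ∀ A : ℝ, ∀ φ : ℝ → ℝ,
      (∀ t : ℝ, HasDerivAt φ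
        (-Real.sin (φ t) + ω * ((r : ℝ) - 2) + A * Real.cos (ω * t)) t) →
      ¬ Tendsto (fun t : ℝ => φ t / (ω * t)) atTop (𝓝 (r : ℝ)) := by
  intro ω hω r hr A φ hφ hlim
  set ψ : ℝ → ℝ := fun τ => φ (τ / ω) with hψd
  have hψ : ∀ τ : ℝ, HasDerivAt ψ
      (1 / ω * (-Real.sin (ψ τ) + ω * ((r : ℝ) - 2) + A * Real.cos τ)) τ := by
    intro τ
    have h1 : HasDerivAt (fun τ : ℝ => τ / ω) (1 / ω) τ := (hasDerivAt_id τ).div_const ω
    have h2 := (hφ (τ / ω)).comp τ h1
    refine h2.congr_deriv ?_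
    rw [mul_div_cancel₀ _ hω.ne']
    ring
  have hlim2 : Tendsto (fun τ : ℝ => ψ τ / τ) atTop (𝓝 (r : ℝ)) := by
    have h1 : Tendsto (fun τ : ℝ => τ / ω) atTop atTop := tendsto_id.atTop_div_const hω
    refine (hlim.comp h1).congr fun τ => ?_
    simp only [Function.comp, hψd]
    rw [mul_div_cancel₀ _ hω.ne']
  rcases Nat.lt_or_ge r 3 with h3 | h3
  · have hS : H535R3.Sol ((r : ℝ) - 2) (A / ω) (1 / ω) ψ := by
      intro τ
      refine (hψ τ).congr_deriv ?_
      field_simp
      ring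
    have hr2 : (r : ℝ) ≤ 2 := by exact_mod_cast Nat.lt_succ_iff.1 h3
    have hr1 : (1 : ℝ) ≤ r := by exact_mod_cast hr
    have := rho_nonpos (by linarith) hS hlim2
    linarith
  · obtain ⟨n, rfl⟩ : ∃ n, r = n + 2 := ⟨r - 2, by omega⟩
    have hn : 1 ≤ n := by omega
    have := H535R3.axis_main ω hω n hn A ψ (fun τ => by
      refine (hψ τ).congr_deriv ?_
      push_cast
      ring) _ hlim2
    push_cast at this
    linarith

end Pool.Agent.S04009
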