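import Pool.Statements.S04831
import Pool.Agent.V7H91.PL.Ge

set_option autoImplicit false
open Filter Topology
open Pool Pool.MP_60675c_an

namespace Pool.Agent.S04831

open H535R3 Pool.Agent.V7H91.PL in
lemma mem_iff {ω : ℝ} (hω : 0 < ω) (r : ℤ) (B A : ℝ) :
    (∀ φ : ℝ → ℝ,
          (∀ t : ℝ, HasDerivAt φ (-Real.sin (φ t) + B + A * Real.cos (ω * t)) t) →
          Tendsto (fun t : ℝ => φ t / (ω * t)) atTop (𝓝 (r : ℝ))) ↔
      (B / ω, A / ω) ∈ Ls r (1 / ω) := by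
  rw [← mem_LL hω]
  constructor
  · intro h φ hφ
    have h4 := (h φ hφ).mul_const ω
    refine h4.congr fun t => ?_
    rw [div_mul_eq_mul_div, mul_comm (φ t) ω, mul_div_mul_left _ _ hω.ne']
  · intro h φ hφ
    have h4 := (h φ hφ).div_const ω
    rw [mul_div_cancel_right₀ _ hω.ne'] at h4
    refine h4.congr fun t => ?_
    rw [div_div, mul_comm t ω]

open H535R3 Pool.Agent.V7H91.PL in
lemma bd_iff {ω σ : ℝ} (hω : 0 < ω) (r : ℤ) {L : ℝ → ℝ → ℝ → Prop}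
    (hL : ∀ B A, L ω B A ↔
        ∀ φ : ℝ → ℝ,
          (∀ t : ℝ, HasDerivAt φ (-Real.sin (φ t) + B + A * Real.cos (ω * t)) t) →
          Tendsto (fun t : ℝ => φ t / (ω * t)) atTop (𝓝 (r : ℝ))) (B A : ℝ) :
    (L ω B A ∧ ∀ B' : ℝ, 0 < σ * (B' - B) → ¬ L ω B' A) ↔ Bs σ r (1 / ω) (B / ω) (A / ω) := by
  have hLL : ∀ B A, L ω B A ↔ (B / ω, A / ω) ∈ Ls r (1 / ω) := fun B A =>
    (hL B A).trans (mem_iff hω r B A)
  rw [hLL, Bs]
  refine and_congr_right fun _ => ?_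
  constructor
  · intro h b' hb' hmem
    refine h (b' * ω) ?_ ((hLL _ _).2 (by rwa [mul_div_cancel_right₀ _ hω.ne']))
    have h1 : σ * (b' * ω - B) = (σ * (b' - B / ω)) * ω := by field_simp
    rw [h1]
    exact mul_pos hb' hω
  · intro h B' hB' hmem
    refine h (B' / ω) ?_ ((hLL _ _).1 hmem)
    have h1 : σ * (B' / ω - B / ω) = (σ * (B' - B)) / ω := by field_simp
    rw [h1]
    exact div_pos hB' hω


/-- For the equation φ' = −sin φ + B + A cos ωt, no left or right boundary of a phase-lock area L_s (s ≥ 0) touches the axis B = lω₀ (l ≥ 1) at a point with A > 0 from the right and then loses all nearby axis intersections as ω increases past ω₀. -/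
theorem result :
    ∀ (ω₀ : ℝ), 0 < ω₀ → ∀ (l : ℕ), 1 ≤ l → ∀ (s : ℕ), ∀ (A₀ : ℝ), 0 < A₀ →
    ∀ (σ : ℝ), (σ = 1 ∨ σ = -1) →
    ∀ (L : ℝ → ℝ → ℝ → Prop),
      (∀ ω B A, L ω B A ↔
        ∀ φ : ℝ → ℝ,
          (∀ t : ℝ, HasDerivAt φ (-Real.sin (φ t) + B + A * Real.cos (ω * t)) t) →
          Tendsto (fun t : ℝ => φ t / (ω * t)) atTop (𝓝 ((s : ℤ) : ℝ))) →
    ∀ (Bd : ℝ → ℝ → ℝ → Prop),
      (∀ ω B A, Bd ω B A ↔ (L ω B A ∧ ∀ B' : ℝ, 0 < σ * (B' - B) → ¬ L ω B' A)) →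
    ¬ (Bd ω₀ ((l : ℝ) * ω₀) A₀ ∧
        (∃ ε > (0 : ℝ), ∀ B A : ℝ, |B - (l : ℝ) * ω₀| < ε → |A - A₀| < ε →
            Bd ω₀ B A → (l : ℝ) * ω₀ ≤ B) ∧
        (∃ ε > (0 : ℝ), ∃ δ > (0 : ℝ), ∀ ω A : ℝ, ω₀ < ω → ω < ω₀ + δ →
            |(l : ℝ) * ω - (l : ℝ) * ω₀| < ε → |A - A₀| < ε →
            ¬ Bd ω ((l : ℝ) * ω) A)) := by
  intro ω₀ hω₀ l hl s A₀ hA₀ σ hσ L hL Bd hBd
  rintro ⟨h1, ⟨ε1, hε1, h2⟩, ⟨ε2, hε2, δ, hδ, h3⟩⟩
  obtain ⟨n, rfl⟩ : ∃ n, l = n + 1 := ⟨l - 1, by omega⟩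
  have hbd : ∀ ω, 0 < ω → ∀ B A, Bd ω B A ↔ Pool.Agent.V7H91.PL.Bs σ (s : ℤ) (1 / ω) (B / ω) (A / ω) :=
    fun ω hω B A => (hBd ω B A).trans (bd_iff hω (s : ℤ) (hL ω) B A)
  have hn : (((n + 1 : ℕ) : ℝ)) = (n : ℝ) + 1 := by push_cast; ring
  have he : 2 * (1 / (2 * ω₀)) = 1 / ω₀ := by field_simp
  refine Pool.Agent.V7H91.PL.core (n := n) (r := s) (σ := σ) (a0 := A₀ / ω₀) (e0 := 1 / (2 * ω₀))
    (by positivity) (by positivity) hσ ?_ ?_ ?_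
  · rw [he]
    have := (hbd ω₀ hω₀ _ _).1 h1
    rwa [mul_div_cancel_right₀ _ hω₀.ne', hn] at this
  · rw [he]
    have c1 : Continuous fun p : ℝ × ℝ => |p.1 * ω₀ - ((n + 1 : ℕ) : ℝ) * ω₀| := by fun_prop
    have c2 : Continuous fun p : ℝ × ℝ => |p.2 * ω₀ - A₀| := by fun_prop
    have t1 := c1.tendsto ((n:ℝ) + 1, A₀ / ω₀)
    have t2 := c2.tendsto ((n:ℝ) + 1, A₀ / ω₀)
    simp only [hn, sub_self, abs_zero, div_mul_cancel₀ _ hω₀.ne'] at t1 t2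
    filter_upwards [t1.eventually (gt_mem_nhds hε1), t2.eventually (gt_mem_nhds hε1)] with p hp1 hp2 hB
    have h4 := h2 (p.1 * ω₀) (p.2 * ω₀) (by rw [hn]; exact hp1) hp2 ((hbd ω₀ hω₀ _ _).2 (by
      rwa [mul_div_cancel_right₀ _ hω₀.ne', mul_div_cancel_right₀ _ hω₀.ne']))
    rw [hn] at h4
    exact le_of_mul_le_mul_right h4 hω₀
  · have he0 : (0:ℝ) < 1 / (2 * ω₀) := by positivity
    have c1 : ContinuousAt (fun p : ℝ × ℝ => 1 / (2 * p.2)) (A₀ / ω₀, 1 / (2 * ω₀)) := by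
      refine ContinuousAt.div (by fun_prop) (by fun_prop) ?_
      simp only
      positivity
    have v1 : 1 / (2 * (1 / (2 * ω₀))) = ω₀ := by field_simp
    have c2 : ContinuousAt (fun p : ℝ × ℝ => |((n + 1 : ℕ) : ℝ) * (1 / (2 * p.2)) - ((n + 1 : ℕ) : ℝ) * ω₀|)
        (A₀ / ω₀, 1 / (2 * ω₀)) := by
      have := (c1.const_mul (((n + 1 : ℕ) : ℝ))).sub (continuousAt_const (y := ((n + 1 : ℕ) : ℝ) * ω₀))
      exact this.abs
    have c3 : ContinuousAt (fun p : ℝ × ℝ => |p.1 * (1 / (2 * p.2)) - A₀|)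
        (A₀ / ω₀, 1 / (2 * ω₀)) := by
      have := ((continuousAt_fst (p := (A₀ / ω₀, 1 / (2 * ω₀)))).mul c1).sub (continuousAt_const (y := A₀))
      exact this.abs
    have t1 := c1.tendsto
    have t2 := c2.tendsto
    have t3 := c3.tendsto
    simp only [v1, sub_self, abs_zero, div_mul_cancel₀ _ hω₀.ne'] at t1 t2 t3
    have c4 : ContinuousAt (fun p : ℝ × ℝ => p.2) (A₀ / ω₀, 1 / (2 * ω₀)) := continuousAt_snd
    filter_upwards [t1.eventually (gt_mem_nhds (show ω₀ < ω₀ + δ by linarith)),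
      t2.eventually (gt_mem_nhds hε2), t3.eventually (gt_mem_nhds hε2),
      c4.tendsto.eventually (lt_mem_nhds he0)] with p hp1 hp2 hp3 hp4 hlt hB
    have hω : (0:ℝ) < 1 / (2 * p.2) := by positivity
    have hlt' : ω₀ < 1 / (2 * p.2) := by
      rw [lt_div_iff₀ (by positivity)]
      rw [lt_div_iff₀ (by positivity)] at hlt
      linarith
    refine h3 (1 / (2 * p.2)) (p.1 * (1 / (2 * p.2))) hlt' hp1 hp2 hp3 ((hbd _ hω _ _).2 ?_)
    rw [mul_div_cancel_right₀ _ hω.ne', mul_div_cancel_right₀ _ hω.ne', one_div_one_div, hn]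
    exact hB

end Pool.Agent.S04831
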