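import Pool.Statements.S09483
import Pool.Agent.V7H8.CoverA2
import Pool.Agent.V7H8.CoverE
import Pool.Agent.V7H8.CoverH
import Pool.Agent.V7H24.Cov.FrameSlices
import Pool.Agent.V7H35.CovB

set_option autoImplicit false
open MeasureTheory
open Pool Pool.MP_736e6a_co

namespace Pool.Agent.S09483

open Pool.Agent.V7H8.Cover in
/-- the lower bound for every convex cover, assembled from the modules -/
theorem lower_bound (K : Set (ℝ × ℝ)) (hK : Convex ℝ K) (hc : Cov K) :
    ENNReal.ofReal Astar ≤ volume K := by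
  by_cases hv : volume K = ⊤
  · rw [hv]; exact le_top
  · obtain ⟨K', m, Λ, k, xs, hf, hvol⟩ := Pool.Agent.V7H24.Cov.exists_frame K hK hc hv
    obtain ⟨hm, hL, hk⟩ := Pool.Agent.V7H24.Cov.frame_facts hf
    have h := endgame hm hL hk
      (fun h2 => Pool.Agent.V7H24.Cov.frame_slices_of analysis hf h2)
      (fun M h0 h1 h2 A h3 h4 => Pool.Agent.V7H24.Cov.frame_hex hf M h0 h1 h2 A h3 h4)
    rw [← hvol, ← ENNReal.ofReal_toReal (a := volume K') (by rw [hvol]; exact hv)]
    exact ENNReal.ofReal_le_ofReal h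

/-- The infimum of the areas of convex plane sets containing a translate of every plane set of diameter 1 equals pi/6 + 2*sqrt(3) - 3. -/
theorem result :
    sInf {a : ENNReal | ∃ K : Set (EuclideanSpace ℝ (Fin 2)), Convex ℝ K ∧
      (∀ S : Set (EuclideanSpace ℝ (Fin 2)), EMetric.diam S = 1 →
        ∃ v : EuclideanSpace ℝ (Fin 2), (fun x => x + v) '' S ⊆ K) ∧
      volume K = a}
      = ENNReal.ofReal (Real.pi / 6 + 2 * Real.sqrt 3 - 3) := by
  exact Pool.Agent.V7H35.Cover.final_of Pool.Agent.V7H8.Cover.upper_bound lower_bound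

end Pool.Agent.S09483
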