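import Pool.Statements.S10311
import Pool.Agent.V7H24.Rig.Final

set_option autoImplicit false
open Pool Pool.MP_98a5df_co

namespace Pool.Agent.S10311

open Finset Pool.Agent.V7H24.Rig in
theorem cr_eq_filter {n : ℕ} (G : SimpleGraph (Fin n)) [DecidableRel G.Adj]
    (X : Finset (Fin n)) :
    cr G X X = 2 * ((Finset.univ.filter (fun e : Fin n × Fin n =>
      e.1 ∈ X ∧ e.2 ∈ X ∧ e.1 < e.2 ∧ G.Adj e.1 e.2)).card : ℤ) := by
  classical
  have h1 : ((Finset.univ.filter (fun e : Fin n × Fin n =>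
      e.1 ∈ X ∧ e.2 ∈ X ∧ e.1 < e.2 ∧ G.Adj e.1 e.2)).card : ℤ)
      = ∑ u ∈ X, ∑ v ∈ X, if u < v ∧ G.Adj u v then (1 : ℤ) else 0 := by
    rw [← sum_product', card_filter]
    push_cast
    rw [← Finset.sum_subset (Finset.subset_univ (X ×ˢ X))]
    · refine sum_congr rfl fun e he => ?_
      rw [mem_product] at he
      simp [he.1, he.2]
    · intro e _ he
      rw [if_neg]
      intro h
      exact he (mem_product.mpr ⟨h.1, h.2.1⟩)
  rw [cr_eq, h1, two_mul]
  nth_rewrite 2 [sum_comm]
  rw [← sum_add_distrib]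
  refine sum_congr rfl fun u _ => ?_
  rw [← sum_add_distrib]
  refine sum_congr rfl fun v _ => ?_
  simp only [mem_nb]
  rcases lt_trichotomy u v with h | h | h
  · by_cases ha : G.Adj u v
    · rw [if_pos ha, if_neg (fun h' => absurd h'.1 (not_lt.mpr h.le)), if_pos ⟨h, ha⟩, zero_add]
    · rw [if_neg ha, if_neg (fun h' => ha h'.2.symm), if_neg (fun h' => ha h'.2), add_zero]
  · subst h
    simp
  · by_cases ha : G.Adj u v
    · rw [if_pos ha, if_pos ⟨h, ha.symm⟩, if_neg (fun h' => absurd h'.1 (not_lt.mpr h.le)),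
        add_zero]
    · rw [if_neg ha, if_neg (fun h' => ha h'.2.symm), if_neg (fun h' => ha h'.2), add_zero]

/-- Every finite 5-regular graph in which each set of k≥3 vertices spans at most 3k−6 edges has a placement in R^3 whose rigidity matrix has linearly independent rows. -/
theorem result :
    ∀ (n : ℕ) (G : SimpleGraph (Fin n)) [DecidableRel G.Adj],
      G.IsRegularOfDegree 5 →
      (∀ S : Finset (Fin n), 3 ≤ S.card →
        (Finset.univ.filter (fun e : Fin n × Fin n =>
          e.1 ∈ S ∧ e.2 ∈ S ∧ e.1 < e.2 ∧ G.Adj e.1 e.2)).card ≤ 3 * S.card - 6) →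
      ∃ p : Fin n → Fin 3 → ℝ,
        LinearIndependent ℝ
          (fun e : {e : Fin n × Fin n // e.1 < e.2 ∧ G.Adj e.1 e.2} =>
            (fun (w : Fin n) (i : Fin 3) =>
              if w = e.val.1 then p e.val.1 i - p e.val.2 i
              else if w = e.val.2 then p e.val.2 i - p e.val.1 i
              else 0)) := by
  intro n G _ hreg hsp
  have hs : Pool.Agent.V7H24.Rig.Sparse G := by
    intro X hX
    have h1 := hsp X hX
    have h2 := cr_eq_filter G X
    unfold Pool.Agent.V7H24.Rig.g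
    rw [h2]
    omega
  have hdeg : ∀ y, (Pool.Agent.V7H24.Rig.nb G y).card ≤ 5 := by
    intro y
    have h1 : Pool.Agent.V7H24.Rig.nb G y = G.neighborFinset y := by
      ext z
      rw [Pool.Agent.V7H24.Rig.mem_nb, SimpleGraph.mem_neighborFinset]
    rw [h1, SimpleGraph.card_neighborFinset_eq_degree, hreg y]
  obtain ⟨p, hp⟩ := Pool.Agent.V7H24.Rig.sparse_indep hs hdeg
  exact ⟨p, (Pool.Agent.V7H24.Rig.indepAt_iff G p).mp hp⟩

end Pool.Agent.S10311
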