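import Pool.Statements.S11707
import Pool.Agent.V7H39.EPPA

set_option autoImplicit false
open Classical
open Pool Pool.MP_d61016_co

namespace Pool.Agent.S11707

/-- Every finite three-graph A embeds as an induced substructure in some finite three-graph B such that every partial automorphism of A extends to an automorphism of B. -/
theorem result :
    ∀ (n : ℕ) (rA : Fin n → Fin n → Prop) (HA : Finset (Finset (Fin n))),
      (Equivalence rA ∧ (∀ a b c, rA a b ∨ rA b c ∨ rA a c) ∧
        (∀ e ∈ HA, e.card = 4 ∧ ∀ v ∈ e, (e.filter (fun w => rA v w)).card = 2) ∧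
        (∀ S : Finset (Fin n), S.card = 5 →
          (∀ v ∈ S, (S.filter (fun w => rA v w)).card ≤ 3) →
          Even (HA.filter (fun e => e ⊆ S)).card)) →
      ∃ (m : ℕ) (rB : Fin m → Fin m → Prop) (HB : Finset (Finset (Fin m))),
        (Equivalence rB ∧ (∀ a b c, rB a b ∨ rB b c ∨ rB a c) ∧
          (∀ e ∈ HB, e.card = 4 ∧ ∀ v ∈ e, (e.filter (fun w => rB v w)).card = 2) ∧
          (∀ S : Finset (Fin m), S.card = 5 →
            (∀ v ∈ S, (S.filter (fun w => rB v w)).card ≤ 3) →
            Even (HB.filter (fun e => e ⊆ S)).card)) ∧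
        ∃ f : Fin n ↪ Fin m,
          (∀ x y, rA x y ↔ rB (f x) (f y)) ∧
          (∀ e : Finset (Fin n), e ∈ HA ↔ e.map f ∈ HB) ∧
          ∀ (S : Finset (Fin n)) (p : Fin n → Fin n),
            Set.InjOn p (S : Set (Fin n)) →
            (∀ x ∈ S, ∀ y ∈ S, rA x y ↔ rA (p x) (p y)) →
            (∀ e ⊆ S, e ∈ HA ↔ e.image p ∈ HA) →
            ∃ σ : Fin m ≃ Fin m,
              (∀ x y, rB x y ↔ rB (σ x) (σ y)) ∧
              (∀ e : Finset (Fin m), e ∈ HB ↔ e.map σ.toEmbedding ∈ HB) ∧
              ∀ x ∈ S, σ (f x) = f (p x) := by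
  intro n rA HA ⟨hEq, h3c, hHA, hHA5⟩
  -- the colouring
  obtain ⟨c, hc⟩ : ∃ c : Fin n → Bool, ∀ x y, rA x y ↔ c x = c y := by
    rcases isEmpty_or_nonempty (Fin n) with h | ⟨⟨x0⟩⟩
    · exact ⟨fun _ => true, fun x => (h.false x).elim⟩
    · refine ⟨fun x => decide (rA x0 x), fun x y => ?_⟩
      constructor
      · intro h
        rw [decide_eq_decide]
        exact ⟨fun h' => hEq.trans h' h, fun h' => hEq.trans h' (hEq.symm h)⟩
      · intro h
        rw [decide_eq_decide] at h
        by_cases h' : rA x0 x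
        · exact hEq.trans (hEq.symm h') (h.1 h')
        · rcases h3c x0 x y with h'' | h'' | h''
          · exact absurd h'' h'
          · exact h''
          · exact absurd (h.2 h'') h'
  have hthree : V7H39.EPPA.IsThree c HA := by
    refine ⟨fun e he => ⟨(hHA e he).1, fun v hv => ?_⟩, fun S hS hcl => ?_⟩
    · rw [← (hHA e he).2 v hv]
      congr 1
      exact Finset.filter_congr fun w _ => (hc v w).symm
    · have := hHA5 S hS fun v hv => by
        rw [Finset.filter_congr fun w _ => hc v w]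
        exact hcl v hv
      convert this
  obtain ⟨G, hG, hHG⟩ := V7H39.EPPA.exists_potential c HA hthree
  let e := Fintype.equivFin (V7H39.EPPA.Ext n)
  let d : Fin (Fintype.card (V7H39.EPPA.Ext n)) → Bool := fun a => (e.symm a).1
  let K : Fin (Fintype.card (V7H39.EPPA.Ext n)) → Fin (Fintype.card (V7H39.EPPA.Ext n)) → ZMod 2 :=
    fun a b => V7H39.EPPA.pot (e.symm a) (e.symm b)
  have hK : ∀ u v, K u v = K v u := fun u v => V7H39.EPPA.pot_symm _ _
  refine ⟨Fintype.card (V7H39.EPPA.Ext n), fun a b => d a = d b,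
    Finset.univ.filter (V7H39.EPPA.Hyp d K), ⟨⟨fun _ => rfl, fun h => h.symm,
      fun h h' => h.trans h'⟩, ?_, ?_, ?_⟩, (V7H39.EPPA.emb c G).trans e.toEmbedding, ?_, ?_, ?_⟩
  · intro a b c'
    have h : ∀ p q r : Bool, p = q ∨ q = r ∨ p = r := by decide
    exact h (d a) (d b) (d c')
  · intro f hf
    have hf' := (Finset.mem_filter.1 hf).2
    refine ⟨hf'.1, fun v hv => ?_⟩
    convert hf'.2.1 v hv
  · intro S hS hcl
    have := V7H39.EPPA.three_axioms d K hK S hS fun v hv => by
      convert hcl v hv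
    convert this
  · intro x y
    rw [hc]
    simp [d, V7H39.EPPA.emb_apply]
  · intro f
    rw [hHG, Finset.mem_filter, V7H39.EPPA.hyp_map c G d K hK false (fun _ => 0)
      ((V7H39.EPPA.emb c G).trans e.toEmbedding)]
    · simp
    · intro x
      simp [d, V7H39.EPPA.emb_apply]
    · intro x y hxy
      rw [add_zero, add_zero, ← V7H39.EPPA.chi_add c G hG hxy]
      simp [K, V7H39.EPPA.pot, V7H39.EPPA.emb_apply]
  · intro S p hinj hrel hhyp
    obtain ⟨b, s, hb, hs⟩ := V7H39.EPPA.partial_aut c G hG S p hinj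
      (fun x hx y hy => by rw [← hc, ← hc]; exact hrel x hx y hy)
      (fun f hf => by
        rw [← hHG, ← hHG]
        convert hhyp f hf)
    obtain ⟨σ, hσ1, ⟨t, ht⟩, hσ2⟩ := V7H39.EPPA.extend c G hG S p hinj b s hb hs
    refine ⟨(e.symm.trans σ).trans e, ?_, ?_, ?_⟩
    · intro x y
      simp only [d, Equiv.trans_apply, Equiv.symm_apply_apply, hσ1]
      rcases b <;> rcases (e.symm x).1 <;> rcases (e.symm y).1 <;> simp
    · intro f
      rw [Finset.mem_filter, Finset.mem_filter, V7H39.EPPA.hyp_map d K d K hK b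
        (fun a => t (e.symm a)) ((e.symm.trans σ).trans e).toEmbedding]
      · simp
      · intro x
        simp [d, hσ1]
      · intro x y hxy
        simp only [K, Equiv.toEmbedding_apply, Equiv.trans_apply, Equiv.symm_apply_apply]
        exact ht _ _ hxy
    · intro x hx
      simp [hσ2 x hx]

end Pool.Agent.S11707
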