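import Pool.Statements.S12083
import Pool.Agent.V7H38.OG.Ten

/-!
# S12083: oriented domination numbers of a graph and its complement

The proof. Minimizer has three kinds of strategies, all of them pairing strategies on disjoint sets
of edges: a vertex with two neighbours in a set `C` is dominated from `C`; of two vertices with one
neighbour each in `C` one is dominated from `C` (and with the first move one more); on a cycle one
source can be forced, so a cycle on `m` vertices costs `⌊m / 2⌋`. Hence (1) a graph without isolated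
vertices has value at most `⌊2n/3⌋`; (2) if moreover it has at most one leaf, the value is at most
`⌊n/2⌋`; (3) the value is at most `|S| + ⌊wt S / 2⌋` for each set `S`. If `G` has two leaves then
(3) bounds the complement by `3`. Otherwise both values are at most `⌊n/2⌋`, which is enough for
`n ≤ 9` and `n = 11`; for larger `n` an averaging argument in (3) over all sets of size four or five
gives the bound, except for `n = 16` (extra structure) and `n = 10` (a decision tree).
-/

set_option autoImplicit false
open Pool Pool.MP_e4b521_co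

namespace Pool.Agent.S12083

open Pool.Agent.V7H38.OG

/-- If a graph G on n vertices and its complement are both connected, the oriented game domination numbers (Minimizer first) of G and of its complement sum to at most 2n/3 + 3. -/
theorem result :
  ∀ (V : Type) [Fintype V] [DecidableEq V] (G : SimpleGraph V),
    G.Connected → Gᶜ.Connected →
    ∀ F : SimpleGraph V → ℕ → Prop,
      (∀ (H : SimpleGraph V) (k : ℕ), F H k ↔
        ∃ P : Set (Finset (V × V)), (∅ : Finset (V × V)) ∈ P ∧ ∀ A ∈ P,
          ((∀ u v : V, H.Adj u v → (u, v) ∈ A ∨ (v, u) ∈ A) →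
              ∃ S : Finset V, S.card ≤ k ∧ ∀ v : V, v ∉ S → ∃ u ∈ S, (u, v) ∈ A) ∧
          ((¬ ∀ u v : V, H.Adj u v → (u, v) ∈ A ∨ (v, u) ∈ A) → Even A.card →
              ∃ u v : V, H.Adj u v ∧ (u, v) ∉ A ∧ (v, u) ∉ A ∧ insert (u, v) A ∈ P) ∧
          ((¬ ∀ u v : V, H.Adj u v → (u, v) ∈ A ∨ (v, u) ∈ A) → Odd A.card →
              ∀ u v : V, H.Adj u v → (u, v) ∉ A → (v, u) ∉ A → insert (u, v) A ∈ P)) →
      ∃ k₁ k₂ : ℕ, F G k₁ ∧ F Gᶜ k₂ ∧ 3 * (k₁ + k₂) ≤ 2 * Fintype.card V + 9 := by
  intro V _ _ G hG hG' F hF
  have hFV : ∀ (H : SimpleGraph V) (k : ℕ), F H k ↔ Value H k := fun H k => hF H k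
  by_contra hcon
  have hbad : Bad G := by
    intro k₁ k₂ h1 h2
    by_contra h3
    exact hcon ⟨k₁, k₂, (hFV _ _).2 h1, (hFV _ _).2 h2, by omega⟩
  have hV : Nonempty V := hG.nonempty
  by_cases hn : Fintype.card V ≤ 1
  · -- one vertex
    have h1 : ∀ H : SimpleGraph V, Value H 1 := by
      intro H
      refine Value.L0 H Finset.univ 1 ?_
      have : wt H Finset.univ = 0 := by
        unfold wt
        simp
      rw [this, Finset.card_univ]
      omega
    have := hbad 1 1 (h1 G) (h1 Gᶜ)
    omega
  · have hnt : Nontrivial V := Fintype.one_lt_card_iff_nontrivial.1 (by omega)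
    have hdeg : ∀ H : SimpleGraph V, H.Connected → ∀ v, 1 ≤ dg H v := by
      classical
      intro H hH v
      obtain ⟨w, hw⟩ := SimpleGraph.Preconnected.exists_adj_of_nontrivial hH.preconnected v
      unfold dg cn
      exact Finset.card_pos.2 ⟨w, Finset.mem_filter.2 ⟨Finset.mem_univ _, hw⟩⟩
    have h1 := hdeg G hG
    have h2 := hdeg Gᶜ hG'
    have h3 := hbad _ _ (hbad.half h1) (hbad.compl.half h2)
    rcases (by omega : Fintype.card V = 10 ∨ Fintype.card V = 16 ∨
      (12 ≤ Fintype.card V ∧ Fintype.card V ≠ 16)) with h | h | h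
    · exact hbad.ten h1 h2 h
    · exact hbad.sixteen h1 h2 h
    · exact hbad.large h1 h2 h.1 h.2

end Pool.Agent.S12083
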