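-- A primitive inner illuminating set of a convex body in three-space has boundedly many elements.
import Pool.Statements.S12905
import Pool.Agent.V7H41.Bound

set_option autoImplicit false
open Pool Pool.MP_26bcd4_gt

namespace Pool.Agent.S12905

open Pool.Agent.V7H41.Crown

/-- There is a natural number N such that for every compact convex set with nonempty interior in 3-space, every primitive inner illuminating set of it (a boundary subset illuminating from inside, no proper subset of which does) has at most N elements. -/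
theorem result :
    ∃ N : ℕ, ∀ K : Set (EuclideanSpace ℝ (Fin 3)),
      IsCompact K → Convex ℝ K → (interior K).Nonempty →
      ∀ A : Set (EuclideanSpace ℝ (Fin 3)),
        (A ⊆ frontier K ∧
          ∀ x ∈ frontier K, ∃ a ∈ A, ∃ ε : ℝ, 0 < ε ∧ ε < 1 ∧
            (1 - ε) • x + ε • a ∈ interior K) →
        (∀ B : Set (EuclideanSpace ℝ (Fin 3)), B ⊆ A → B ≠ A →
          ¬ (B ⊆ frontier K ∧
            ∀ x ∈ frontier K, ∃ b ∈ B, ∃ ε : ℝ, 0 < ε ∧ ε < 1 ∧
              (1 - ε) • x + ε • b ∈ interior K)) →
        A.encard ≤ (N : ℕ∞) := by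
  refine ⟨need (need 3), ?_⟩
  intro K hK hconv hint A hA hprim
  obtain ⟨hAK, hill⟩ := hA
  have hclosed := hK.isClosed
  have hfr : frontier K ⊆ K := hclosed.frontier_subset
  -- for every `a ∈ A` there is a boundary point illuminated by `a` only
  have hex : ∀ a : A, ∃ x ∈ frontier K,
      (∀ b ∈ A, b ≠ a → ∀ ε : ℝ, 0 < ε → ε < 1 → (1 - ε) • x + ε • b ∉ interior K) ∧
      ∃ ε : ℝ, 0 < ε ∧ ε < 1 ∧ (1 - ε) • x + ε • (a : EuclideanSpace ℝ (Fin 3)) ∈ interior K := by
    rintro ⟨a, ha⟩
    have h1 := hprim (A \ {a}) Set.sdiff_subset (by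
      intro h
      have : a ∈ A \ {a} := by rw [h]; exact ha
      exact this.2 rfl)
    rw [not_and] at h1
    have h2 := h1 (Set.sdiff_subset.trans hAK)
    push Not at h2
    obtain ⟨x, hx, h3⟩ := h2
    refine ⟨x, hx, fun b hb hba ε h0 h1 => h3 b ⟨hb, hba⟩ ε h0 h1, ?_⟩
    obtain ⟨b, hb, ε, h0, h1', h4⟩ := hill x hx
    by_cases hba : b = a
    · subst hba
      exact ⟨ε, h0, h1', h4⟩
    · exact absurd h4 (h3 b ⟨hb, hba⟩ ε h0 h1')
  choose x hx hx1 hx2 using hex
  have hcrown : IsCrown K x (fun a : A => (a : EuclideanSpace ℝ (Fin 3))) := by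
    refine ⟨fun i => hfr (hx i), fun i => hfr (hAK i.2), ?_, ?_⟩
    · intro i j hij
      have hm : (1 - (1 / 2 : ℝ)) • x i + (1 / 2 : ℝ) • (j : EuclideanSpace ℝ (Fin 3)) ∉
          interior K := hx1 i j j.2 (fun e => hij (Subtype.ext e.symm)) _ (by norm_num) (by norm_num)
      obtain ⟨g, hg⟩ := geometric_hahn_banach_open_point hconv.interior isOpen_interior hm
      set f := (InnerProductSpace.toDual ℝ (EuclideanSpace ℝ (Fin 3))).symm g with hf
      have hfg : ∀ z, dot f z = g z := by
        intro z
        have : g z = inner ℝ f z := by rw [hf, InnerProductSpace.toDual_symm_apply]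
        rw [this]
        simp only [dot, PiLp.inner_apply, Fin.sum_univ_three]
        simp only [RCLike.inner_apply, conj_trivial]
        ring
      have hle : ∀ y ∈ K, g y ≤
          g ((1 - (1 / 2 : ℝ)) • x i + (1 / 2 : ℝ) • (j : EuclideanSpace ℝ (Fin 3))) := by
        intro y hy
        have hcl : y ∈ closure (interior K) := by
          rw [hconv.closure_interior_eq_closure_of_nonempty_interior hint]
          exact subset_closure hy
        have hsub : closure (interior K) ⊆ {z | g z ≤
            g ((1 - (1 / 2 : ℝ)) • x i + (1 / 2 : ℝ) • (j : EuclideanSpace ℝ (Fin 3)))} :=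
          closure_minimal (fun z hz => (hg z hz).le) (isClosed_le g.continuous continuous_const)
        exact hsub hcl
      rw [map_add, map_smul, map_smul, smul_eq_mul, smul_eq_mul] at hle
      have e1 := hle _ (hfr (hx i))
      have e2 := hle _ (hfr (hAK j.2))
      obtain ⟨o, ho⟩ := hint
      refine ⟨f, ?_, ?_, ?_⟩
      · intro h0
        have h1 := hg o ho
        rw [← hfg, ← hfg, h0] at h1
        simp [dot] at h1
      · intro y hy
        rw [hfg, hfg]
        have := hle y hy
        linarith
      · rw [hfg, hfg]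
        linarith
    · intro i f hf hmax he
      obtain ⟨ε, h0, h1, h2⟩ := hx2 i
      have h3 := int_lt h2 hf hmax
      rw [dot_add, dot_smul, dot_smul, he] at h3
      linarith
  classical
  by_contra hcon
  push Not at hcon
  obtain ⟨t, htA, ht⟩ := Set.exists_subset_encard_eq (s := A) (k := ((need (need 3) : ℕ) : ℕ∞)) hcon.le
  have htf : t.Finite := Set.finite_of_encard_eq_coe ht
  have hlt := hcrown.card_lt hint ((htf.toFinset.subtype (fun z => z ∈ A)))
  have hcard : (htf.toFinset.subtype (fun z => z ∈ A)).card = need (need 3) := by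
    rw [Finset.card_subtype, Finset.filter_true_of_mem (fun z hz => htA (htf.mem_toFinset.1 hz))]
    have := htf.encard_eq_coe_toFinset_card
    rw [ht] at this
    exact_mod_cast this.symm
  omega

end Pool.Agent.S12905
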