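import Pool.Statements.S13885

set_option autoImplicit false
open Pool Pool.MP_c36963_gt

namespace Pool.Agent.S13885

/-- There exists r : ℂ → ℂ mapping the closed unit disk into the unit circle, fixing the circle, with connected fibers in the disk, such that only finitely many circle points y fail: for all circle sequences s_n → y, every point of the Kuratowski lim sup of the fibers r⁻¹(s_n) lies in r⁻¹(y). -/
theorem result :
    ∃ r : ℂ → ℂ,
      (∀ z ∈ Metric.closedBall (0:ℂ) 1, r z ∈ Metric.sphere (0:ℂ) 1) ∧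
      (∀ y ∈ Metric.sphere (0:ℂ) 1, r y = y) ∧
      (∀ y ∈ Metric.sphere (0:ℂ) 1,
        IsConnected {z : ℂ | z ∈ Metric.closedBall (0:ℂ) 1 ∧ r z = y}) ∧
      Set.Finite {y : ℂ | y ∈ Metric.sphere (0:ℂ) 1 ∧
        ¬ (∀ s : ℕ → ℂ, (∀ n, s n ∈ Metric.sphere (0:ℂ) 1) →
            Filter.Tendsto s Filter.atTop (nhds y) →
            ∀ x : ℂ, (∀ ε : ℝ, ε > 0 → ∀ N : ℕ, ∃ n : ℕ, n ≥ N ∧
                ∃ z : ℂ, z ∈ Metric.closedBall (0:ℂ) 1 ∧ r z = s n ∧ dist z x < ε) →
              r x = y)} := by
  classical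
  -- the retraction which is the identity on the circle and constant on the open disk
  let r : ℂ → ℂ := fun z => if z ∈ Metric.sphere (0:ℂ) 1 then z else 1
  have h1 : (1 : ℂ) ∈ Metric.sphere (0:ℂ) 1 := by simp
  have hr : ∀ y ∈ Metric.sphere (0:ℂ) 1, r y = y := fun y hy => if_pos hy
  have hr' : ∀ z, z ∉ Metric.sphere (0:ℂ) 1 → r z = 1 := fun z hz => if_neg hz
  have hfib : ∀ z y, r z = y → y ≠ 1 → z = y := by
    intro z y h hy
    by_cases hz : z ∈ Metric.sphere (0:ℂ) 1
    · rw [← h, hr z hz]
    · exact absurd (h.symm.trans (hr' z hz)) hy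
  refine ⟨r, ?_, hr, ?_, ?_⟩
  · intro z _
    by_cases hz : z ∈ Metric.sphere (0:ℂ) 1
    · rw [hr z hz]; exact hz
    · rw [hr' z hz]; exact h1
  · intro y hy
    by_cases hy1 : y = 1
    · subst hy1
      have hsub : Metric.ball (0:ℂ) 1 ⊆ {z : ℂ | z ∈ Metric.closedBall (0:ℂ) 1 ∧ r z = 1} := by
        intro z hz
        refine ⟨Metric.ball_subset_closedBall hz, hr' z ?_⟩
        intro h
        have h2 := Metric.mem_sphere.1 h
        have h3 := Metric.mem_ball.1 hz
        linarith
      refine ⟨⟨1, Metric.sphere_subset_closedBall h1, hr 1 h1⟩, ?_⟩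
      refine (convex_ball (0:ℂ) 1).isPreconnected.subset_closure hsub ?_
      rw [closure_ball (0:ℂ) one_ne_zero]
      exact fun z hz => hz.1
    · have : {z : ℂ | z ∈ Metric.closedBall (0:ℂ) 1 ∧ r z = y} = {y} := by
        ext z
        constructor
        · rintro ⟨-, h⟩
          exact hfib z y h hy1
        · rintro rfl
          exact ⟨Metric.sphere_subset_closedBall hy, hr _ hy⟩
      rw [this]
      exact isConnected_singleton
  · refine (Set.finite_singleton (1:ℂ)).subset ?_
    rintro y ⟨hy, hn⟩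
    by_contra hy1
    apply hn
    intro s hs hlim x hx
    have hne : ∀ᶠ n in Filter.atTop, s n ≠ 1 := hlim.eventually_ne hy1
    have hxy : x = y := by
      refine eq_of_forall_dist_le fun ε hε => ?_
      have hd : ∀ᶠ n in Filter.atTop, dist (s n) y < ε / 2 :=
        hlim.eventually (Metric.ball_mem_nhds y (by linarith))
      obtain ⟨N, hN⟩ := Filter.eventually_atTop.1 (hne.and hd)
      obtain ⟨n, hnN, z, -, hz, hzx⟩ := hx (ε / 2) (by linarith) N
      have hzs : z = s n := hfib z (s n) hz (hN n hnN).1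
      rw [hzs] at hzx
      have h2 := (hN n hnN).2
      have h3 := dist_triangle x (s n) y
      rw [dist_comm x (s n)] at h3
      linarith
    rw [hxy]
    exact hr y hy

end Pool.Agent.S13885
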