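import Pool.Statements.S15271
import Pool.Agent.V7H96.VarDepth

set_option autoImplicit false
open Pool Pool.MP_b75d2f_lc

namespace Pool.Agent.S15271

/-- There is a constant c such that every CNF in n variables with a resolution refutation in variable space V also has a resolution refutation of depth at most (V·(log₂ n + 1))^c. -/
theorem result :
  ∃ c : ℕ, ∀ (n V : ℕ) (F : Finset (Finset (Fin n × Bool))),
    (∀ i : Fin n, ∃ C ∈ F, ∃ b : Bool, (i, b) ∈ C) →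
    (∃ (t : ℕ) (M : ℕ → Finset (Finset (Fin n × Bool))),
      M 0 = ∅ ∧ ∅ ∈ M t ∧
      (∀ i < t,
        (∃ C ∈ F, M (i + 1) = insert C (M i)) ∨
        (∃ C ∈ M i, M (i + 1) = (M i).erase C) ∨
        (∃ C₁ ∈ M i, ∃ C₂ ∈ M i, ∃ x : Fin n, (x, true) ∈ C₁ ∧ (x, false) ∈ C₂ ∧
          M (i + 1) = insert (C₁.erase (x, true) ∪ C₂.erase (x, false)) (M i))) ∧
      ∀ i ≤ t, (((M i).biUnion id).image Prod.fst).card ≤ V) →
    ∃ (D : ℕ) (S : ℕ → Set (Finset (Fin n × Bool))),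
      S 0 = (↑F : Set (Finset (Fin n × Bool))) ∧
      (∀ (k : ℕ) (C : Finset (Fin n × Bool)), C ∈ S (k + 1) ↔
        (C ∈ S k ∨ ∃ C₁ ∈ S k, ∃ C₂ ∈ S k, ∃ x : Fin n, (x, true) ∈ C₁ ∧ (x, false) ∈ C₂ ∧
          C = C₁.erase (x, true) ∪ C₂.erase (x, false))) ∧
      (∅ : Finset (Fin n × Bool)) ∈ S D ∧ D ≤ (V * (Nat.log 2 n + 1)) ^ c := by
  refine ⟨6, ?_⟩
  intro n V F _ hM
  obtain ⟨t, M, h0, ht, hstep, hV⟩ := hM
  have hlog : n < 2 ^ (Nat.log 2 n + 1) := Nat.lt_pow_succ_log_self (by norm_num) n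
  have hb := Pool.Agent.V7H96.VD.depth_bound (F := F) M hlog h0 ht hstep hV
  have htr := Pool.Agent.V7H96.VD.depth_trivial (F := F) M h0 ht hstep
  rcases Nat.eq_zero_or_pos V with hV0 | hVpos
  · subst hV0
    refine ⟨0, Pool.Agent.H561R2.VS.lev F, rfl, fun k C => Iff.rfl, ?_, Nat.zero_le _⟩
    simpa using hb
  · by_cases hn : n ≤ 1
    · refine ⟨n, Pool.Agent.H561R2.VS.lev F, rfl, fun k C => Iff.rfl, htr, ?_⟩
      refine hn.trans (Nat.one_le_pow _ _ ?_)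
      positivity
    · refine ⟨_, Pool.Agent.H561R2.VS.lev F, rfl, fun k C => Iff.rfl, hb, ?_⟩
      set L := Nat.log 2 n + 1 with hL
      have hL2 : 2 ≤ L := by
        have : 0 < Nat.log 2 n := Nat.log_pos (by norm_num) (by omega)
        omega
      have hX : 2 ≤ V * L := by nlinarith
      have hVX : V ≤ V * L := by nlinarith
      obtain ⟨X, hXd⟩ : ∃ X, X = V * L := ⟨_, rfl⟩
      rw [← hXd] at hX hVX ⊢
      have h5 : 2 * V * (L + 1) + 1 ≤ 5 * X := by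
        have : 2 * V * (L + 1) + 1 = 2 * X + 2 * V + 1 := by rw [hXd]; ring
        omega
      have h6 : (2 * V * (L + 1) + 1) * V ≤ 5 * X * X := Nat.mul_le_mul h5 hVX
      have h7 : (X + 1) * ((2 * V * (L + 1) + 1) * V) ≤ (X + 1) * (5 * X * X) :=
        Nat.mul_le_mul_left _ h6
      have h8 : (X + 1) * (5 * X * X) + X ≤ 8 * X ^ 3 := by
        obtain ⟨Y, rfl⟩ : ∃ Y, X = Y + 2 := ⟨X - 2, by omega⟩
        ring_nf
        nlinarith [Nat.zero_le (Y ^ 3), Nat.zero_le (Y ^ 2), Nat.zero_le Y]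
      have h9 : 8 * X ^ 3 ≤ X ^ 6 := by
        have h10 : 2 ^ 3 ≤ X ^ 3 := Nat.pow_le_pow_left hX 3
        calc 8 * X ^ 3 = 2 ^ 3 * X ^ 3 := by norm_num
          _ ≤ X ^ 3 * X ^ 3 := Nat.mul_le_mul_right _ h10
          _ = X ^ 6 := by rw [← pow_add]
      omega

end Pool.Agent.S15271
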