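import Pool.Statements.S15721
import Pool.Agent.V7H99.Fi
import Pool.Agent.V7H99.X0
import Pool.Agent.V7H99.X1
import Pool.Agent.V7H99.X2
import Pool.Agent.V7H99.X3
import Pool.Agent.V7H99.X4
import Pool.Agent.V7H99.X5

set_option autoImplicit false
open Pool Pool.MP_4944ab_mp

namespace Pool.Agent.S15721

open Pool.Agent.K1H99.FCC in
open Pool.Agent.V7H99 in
/-- the inequality for all reduced forms above the critical parameter -/
theorem all_reduced (s1 d1 s2 d2 s3 d3 : ℝ) (h12 : s2 ≤ s1) (h23 : s3 ≤ s2) (p1 : 0 ≤ d1)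
    (h1 : d1 ≤ s1) (p2 : 0 ≤ d2) (h2 : d2 ≤ s2) (h3 : d3 ≤ s3) (h3' : -d3 ≤ s3)
    (hp : PD (sd s1 d1 s2 d2 s3 d3)) (t : ℝ) (ht : t0 < t) :
    Tt t < Gs (sd s1 d1 s2 d2 s3 d3) t ∨ ∃ c : ℝ, 0 < c ∧ sd s1 d1 s2 d2 s3 d3 = c • Fp := by
  have h0 := t0_lo
  rcases le_total t (41000 / 10000) with a1 | a1
  · exact slice0 h12 h23 h3 h3' p1 h1 p2 h2 hp t ⟨by linarith, a1⟩ ht
  rcases le_total t (45000 / 10000) with a2 | a2
  · exact slice1 h12 h23 h3 h3' p1 h1 p2 h2 hp t ⟨a1, a2⟩ ht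
  rcases le_total t (55000 / 10000) with a3 | a3
  · exact slice2 h12 h23 h3 h3' p1 h1 p2 h2 hp t ⟨a2, a3⟩ ht
  rcases le_total t (75000 / 10000) with a4 | a4
  · exact slice3 h12 h23 h3 h3' p1 h1 p2 h2 hp t ⟨a3, a4⟩ ht
  rcases le_total t (110000 / 10000) with a5 | a5
  · exact slice4 h12 h23 h3 h3' p1 h1 p2 h2 hp t ⟨a4, a5⟩ ht
  · exact slice5 h12 h23 h3 h3' p1 h1 p2 h2 hp t a5 ht

/-- For 0<β<1 and every unit-covolume lattice L=Aℤ³ in ℝ³, the sum of exp(−πβ∣p∣²) over L is at least its value for the unit-covolume BCC lattice, with equality only when L is a rotation of BCC. -/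
theorem result :
    ∀ β : ℝ, 0 < β → β < 1 →
      ∀ A : Matrix (Fin 3) (Fin 3) ℝ, |A.det| = 1 →
        ((∑' z : Fin 3 → ℤ, Real.exp (-Real.pi * β *
            ∑ i, (((2:ℝ) ^ ((1:ℝ)/3) • !![(1:ℝ), 0, 1/2; 0, 1, 1/2; 0, 0, 1/2]).mulVec
              (fun j => (z j : ℝ)) i) ^ 2))
          ≤ ∑' z : Fin 3 → ℤ, Real.exp (-Real.pi * β *
              ∑ i, (A.mulVec (fun j => (z j : ℝ)) i) ^ 2)) ∧
        ((∑' z : Fin 3 → ℤ, Real.exp (-Real.pi * β *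
            ∑ i, (((2:ℝ) ^ ((1:ℝ)/3) • !![(1:ℝ), 0, 1/2; 0, 1, 1/2; 0, 0, 1/2]).mulVec
              (fun j => (z j : ℝ)) i) ^ 2))
          = ∑' z : Fin 3 → ℤ, Real.exp (-Real.pi * β *
              ∑ i, (A.mulVec (fun j => (z j : ℝ)) i) ^ 2) →
          ∃ R ∈ Matrix.orthogonalGroup (Fin 3) ℝ,
            Set.range (fun z : Fin 3 → ℤ => A.mulVec (fun j => (z j : ℝ))) =
              Set.range (fun z : Fin 3 → ℤ =>
                (R * ((2:ℝ) ^ ((1:ℝ)/3) • !![(1:ℝ), 0, 1/2; 0, 1, 1/2; 0, 0, 1/2])).mulVec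
                  (fun j => (z j : ℝ)))) := by
  intro β h0 h1 A hA
  have h := Pool.Agent.V7H99.main_of all_reduced h0 h1 hA
  have e : ∀ (M : Matrix (Fin 3) (Fin 3) ℝ), ∑' z : Fin 3 → ℤ, Real.exp (-Real.pi * β *
      ∑ i, (M.mulVec (fun j => (z j : ℝ)) i) ^ 2) = ∑' z : Fin 3 → ℤ,
        Real.exp (-(Real.pi * β) * Pool.Agent.K1H99.FCC.nsq M (Pool.Agent.K1H99.FCC.rv z)) := by
    intro M
    refine tsum_congr fun z => ?_
    rw [neg_mul Real.pi β]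
    rfl
  rw [e, e]
  exact h

end Pool.Agent.S15721
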