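import Pool.Statements.S16733

set_option autoImplicit false
open Pool Pool.MP_44e698_nt

namespace Pool.Agent.S16733

/-!
Write `M = 2m+1`, `K = 2k+1`.  Expanding the geometric series, `Y(q)` is a signed sum of `q^((MK+2nB+1)/2)` over
`MK + 2nB` with `K > 2n`, the sign being `χ(M)(-1)^B` (up to a global sign).  For `MK + 2nB ≡ 3 mod 4` the part with
odd `B` is mapped by `(M, K, 2n, B) ↦ (M, K-2n, 2n, B+M)` onto the part with even `B` and `B > M`,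
and the symmetries `M ↔ K`, `2n ↔ B` of the even part finish the proof.
-/

/-- index `((m, n), (k, c))` -/
abbrev I4 := (ℕ × ℕ) × (ℕ × ℕ)

/-- the even part -/
noncomputable def E (q : ℂ) (x : I4) : ℂ :=
  ((-1) ^ x.1.1 * (1 + (-1) ^ (x.1.1 + x.2.1 + 1))) *
    q ^ (2 * x.1.1 * x.2.1 + x.1.1 + x.2.1 + 1 + 2 * (x.1.2 + 1) * (x.2.2 + 1))

theorem wsymm (m k : ℕ) :
    ((-1 : ℂ) ^ k * (1 + (-1) ^ (k + m + 1))) = -((-1 : ℂ) ^ m * (1 + (-1) ^ (m + k + 1))) := by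
  rcases Nat.even_or_odd m with hm | hm <;> rcases Nat.even_or_odd k with hk | hk
  · have h1 : Odd (k + m + 1) := (hk.add hm).add_one
    have h2 : Odd (m + k + 1) := (hm.add hk).add_one
    rw [h1.neg_one_pow, h2.neg_one_pow]; ring
  · have h1 : Even (k + m + 1) := (hk.add_even hm).add_one
    have h2 : Even (m + k + 1) := (hm.add_odd hk).add_one
    rw [h1.neg_one_pow, h2.neg_one_pow, hk.neg_one_pow, hm.neg_one_pow]; ring
  · have h1 : Even (k + m + 1) := (hk.add_odd hm).add_one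
    have h2 : Even (m + k + 1) := (hm.add_even hk).add_one
    rw [h1.neg_one_pow, h2.neg_one_pow, hk.neg_one_pow, hm.neg_one_pow]; ring
  · have h1 : Odd (k + m + 1) := (hk.add_odd hm).add_one
    have h2 : Odd (m + k + 1) := (hm.add_odd hk).add_one
    rw [h1.neg_one_pow, h2.neg_one_pow]; ring

theorem E_swapmk (q : ℂ) (m n k c : ℕ) : E q ((k, n), (m, c)) = -E q ((m, n), (k, c)) := by
  unfold E
  dsimp only
  rw [wsymm m k]
  have : 2 * k * m + k + m + 1 + 2 * (n + 1) * (c + 1) = 2 * m * k + m + k + 1 + 2 * (n + 1) * (c + 1) := by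
    ring
  rw [this]
  ring

theorem E_swapnc (q : ℂ) (m n k c : ℕ) : E q ((m, c), (k, n)) = E q ((m, n), (k, c)) := by
  unfold E
  dsimp only
  have : 2 * m * k + m + k + 1 + 2 * (c + 1) * (n + 1) = 2 * m * k + m + k + 1 + 2 * (n + 1) * (c + 1) := by
    ring
  rw [this]

theorem summable_geo4 (r : ℝ) (h0 : 0 ≤ r) (h1 : r < 1) :
    Summable (fun x : I4 => (r ^ x.1.1 * r ^ x.1.2) * (r ^ x.2.1 * r ^ x.2.2)) := by
  have hg := summable_geometric_of_lt_one h0 h1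
  have hn : (0 : ℕ → ℝ) ≤ fun n => r ^ n := fun n => pow_nonneg h0 n
  have h2 : Summable (fun x : ℕ × ℕ => r ^ x.1 * r ^ x.2) := hg.mul_of_nonneg hg hn hn
  have hn2 : (0 : ℕ × ℕ → ℝ) ≤ fun x => r ^ x.1 * r ^ x.2 := fun x =>
    mul_nonneg (pow_nonneg h0 _) (pow_nonneg h0 _)
  exact h2.mul_of_nonneg h2 hn2 hn2

/-- general summability -/
theorem summable_gen (q : ℂ) (hq : ‖q‖ < 1) (w : I4 → ℂ) (e : I4 → ℕ) (hw : ∀ x, ‖w x‖ ≤ 2)
    (he : ∀ x, x.1.1 + x.1.2 + x.2.1 + x.2.2 ≤ e x) : Summable (fun x => w x * q ^ e x) := by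
  refine Summable.of_norm_bounded ((summable_geo4 ‖q‖ (norm_nonneg _) hq).mul_left 2) fun x => ?_
  rw [norm_mul, norm_pow]
  have h1 : ‖q‖ ^ e x ≤ ‖q‖ ^ (x.1.1 + x.1.2 + x.2.1 + x.2.2) :=
    pow_le_pow_of_le_one (norm_nonneg _) hq.le (he x)
  have h2 : ‖q‖ ^ (x.1.1 + x.1.2 + x.2.1 + x.2.2) =
      (‖q‖ ^ x.1.1 * ‖q‖ ^ x.1.2) * (‖q‖ ^ x.2.1 * ‖q‖ ^ x.2.2) := by
    rw [pow_add, pow_add, pow_add]; ring
  rw [h2] at h1
  exact mul_le_mul (hw x) h1 (pow_nonneg (norm_nonneg _) _) (by norm_num)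

theorem norm_neg_one_pow (n : ℕ) : ‖(-1 : ℂ) ^ n‖ = 1 := by
  rw [norm_pow]; simp

theorem norm_w (m k : ℕ) : ‖(-1 : ℂ) ^ m * (1 + (-1) ^ k)‖ ≤ 2 := by
  rw [norm_mul, norm_neg_one_pow, one_mul]
  refine (norm_add_le _ _).trans ?_
  rw [norm_neg_one_pow]; norm_num

theorem summable_E (q : ℂ) (hq : ‖q‖ < 1) : Summable (E q) := by
  refine summable_gen q hq (fun x => (-1) ^ x.1.1 * (1 + (-1) ^ (x.1.1 + x.2.1 + 1)))
    (fun x => 2 * x.1.1 * x.2.1 + x.1.1 + x.2.1 + 1 + 2 * (x.1.2 + 1) * (x.2.2 + 1))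
    (fun x => norm_w _ _) fun x => ?_
  nlinarith [Nat.zero_le (x.1.1 * x.2.1), Nat.zero_le (x.1.2 * x.2.2)]

/-- swap of `m` and `k` -/
def smk : I4 ≃ I4 where
  toFun x := ((x.2.1, x.1.2), (x.1.1, x.2.2))
  invFun x := ((x.2.1, x.1.2), (x.1.1, x.2.2))
  left_inv _ := rfl
  right_inv _ := rfl

/-- swap of `n` and `c` -/
def snc : I4 ≃ I4 where
  toFun x := ((x.1.1, x.2.2), (x.2.1, x.1.2))
  invFun x := ((x.1.1, x.2.2), (x.2.1, x.1.2))
  left_inv _ := rfl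
  right_inv _ := rfl

theorem tsum_E_zero (q : ℂ) : ∑' x, E q x = 0 := by
  have h : ∑' x, E q (smk x) = ∑' x, E q x := Equiv.tsum_eq smk (E q)
  have h2 : ∑' x, E q (smk x) = -∑' x, E q x := by
    rw [← tsum_neg]
    exact tsum_congr fun x => E_swapmk q x.1.1 x.1.2 x.2.1 x.2.2
  have h3 : ∑' x, E q x = -∑' x, E q x := h.symm.trans h2
  have h4 : (2 : ℂ) * ∑' x, E q x = 0 := by linear_combination h3
  simpa using h4

/-- The core identity. -/
theorem core (q : ℂ) (hq : ‖q‖ < 1) :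
    ∑' x : I4, E q ((x.1.1, x.1.2), (x.2.1, x.1.1 + x.2.2)) =
      ∑' x : I4, E q ((x.1.1, x.1.2), (x.2.1 + x.1.2 + 1, x.2.2)) := by
  classical
  -- indicator forms
  have hA : ∑' x : I4, E q ((x.1.1, x.1.2), (x.2.1, x.1.1 + x.2.2)) =
      ∑' x : I4, if x.1.1 ≤ x.2.2 then E q x else 0 := by
    have hinj : Function.Injective
        (fun x : I4 => (((x.1.1, x.1.2), (x.2.1, x.1.1 + x.2.2)) : I4)) := by
      rintro ⟨⟨m, n⟩, ⟨k, c⟩⟩ ⟨⟨m', n'⟩, ⟨k', c'⟩⟩ h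
      simp only [Prod.mk.injEq] at h ⊢
      omega
    rw [← hinj.tsum_eq (f := fun x : I4 => if x.1.1 ≤ x.2.2 then E q x else 0)]
    · refine tsum_congr fun x => ?_
      simp
    · rintro ⟨⟨m, n⟩, ⟨k, c⟩⟩ h
      simp only [Function.mem_support, ne_eq, ite_eq_right_iff, Classical.not_imp] at h
      refine ⟨((m, n), (k, c - m)), ?_⟩
      simp only [Prod.mk.injEq, true_and]
      omega
  have hB : ∑' x : I4, E q ((x.1.1, x.1.2), (x.2.1 + x.1.2 + 1, x.2.2)) =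
      ∑' x : I4, if x.1.2 < x.2.1 then E q x else 0 := by
    have hinj : Function.Injective
        (fun x : I4 => (((x.1.1, x.1.2), (x.2.1 + x.1.2 + 1, x.2.2)) : I4)) := by
      rintro ⟨⟨m, n⟩, ⟨k, c⟩⟩ ⟨⟨m', n'⟩, ⟨k', c'⟩⟩ h
      simp only [Prod.mk.injEq] at h ⊢
      omega
    rw [← hinj.tsum_eq (f := fun x : I4 => if x.1.2 < x.2.1 then E q x else 0)]
    · refine tsum_congr fun x => ?_
      have : x.1.2 < x.2.1 + x.1.2 + 1 := by omega
      simp [this]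
    · rintro ⟨⟨m, n⟩, ⟨k, c⟩⟩ h
      simp only [Function.mem_support, ne_eq, ite_eq_right_iff, Classical.not_imp] at h
      refine ⟨((m, n), (k - n - 1, c)), ?_⟩
      simp only [Prod.mk.injEq, true_and, and_true]
      omega
  rw [hA, hB]
  have hs := summable_E q hq
  have hs1 : Summable (fun x : I4 => if x.1.1 ≤ x.2.2 then E q x else 0) := by
    have := hs.indicator {x : I4 | x.1.1 ≤ x.2.2}
    refine this.congr fun x => ?_
    simp [Set.indicator]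
  have hs2 : Summable (fun x : I4 => if x.2.2 < x.1.1 then E q x else 0) := by
    have := hs.indicator {x : I4 | x.2.2 < x.1.1}
    refine this.congr fun x => ?_
    simp [Set.indicator]
  have h1 : ∑' x : I4, (if x.1.1 ≤ x.2.2 then E q x else 0) +
      ∑' x : I4, (if x.2.2 < x.1.1 then E q x else 0) = 0 := by
    rw [← hs1.tsum_add hs2]
    refine Eq.trans (tsum_congr fun x => ?_) (tsum_E_zero q)
    by_cases h : x.1.1 ≤ x.2.2
    · have h' : ¬ x.2.2 < x.1.1 := by omega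
      simp [h, h']
    · have h' : x.2.2 < x.1.1 := by omega
      simp [h, h']
  have h2 : ∑' x : I4, (if x.2.2 < x.1.1 then E q x else 0) =
      ∑' x : I4, (if x.1.2 < x.1.1 then E q x else 0) := by
    rw [← Equiv.tsum_eq snc]
    refine tsum_congr fun x => ?_
    have : E q (snc x) = E q x := E_swapnc q x.1.1 x.1.2 x.2.1 x.2.2
    rw [this]
    rfl
  have h3 : ∑' x : I4, (if x.1.2 < x.1.1 then E q x else 0) =
      -∑' x : I4, (if x.1.2 < x.2.1 then E q x else 0) := by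
    rw [← Equiv.tsum_eq smk, ← tsum_neg]
    refine tsum_congr fun x => ?_
    have : E q (smk x) = -E q x := E_swapmk q x.1.1 x.1.2 x.2.1 x.2.2
    rw [this]
    have h5 : ((smk x).1.2 < (smk x).1.1) ↔ (x.1.2 < x.2.1) := Iff.rfl
    by_cases h : x.1.2 < x.2.1
    · rw [if_pos h, if_pos (h5.2 h)]
    · rw [if_neg h, if_neg (fun h6 => h (h5.1 h6))]; simp
  rw [h2, h3] at h1
  linear_combination h1

/-- first exponent -/
def e1 (x : I4) : ℕ := (x.1.1 + 1) * (2 * x.1.2 + 3) + (2 * x.1.1 + 1) * x.2.1 + 2 * (x.1.2 + 1) * x.2.2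

/-- second exponent -/
def e2 (x : I4) : ℕ := e1 x + (x.1.2 + 1)

theorem he1 (x : I4) : x.1.1 + x.1.2 + x.2.1 + x.2.2 ≤ e1 x := by
  unfold e1
  nlinarith [Nat.zero_le (x.1.1 * x.1.2), Nat.zero_le (x.1.1 * x.2.1), Nat.zero_le (x.1.2 * x.2.2)]

theorem summable_G1 (q : ℂ) (hq : ‖q‖ < 1) :
    Summable (fun x : I4 => (-1 : ℂ) ^ (x.1.1 + 1) * q ^ e1 x) :=
  summable_gen q hq _ _ (fun x => by rw [norm_neg_one_pow]; norm_num) he1

theorem summable_G2 (q : ℂ) (hq : ‖q‖ < 1) :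
    Summable (fun x : I4 => (-1 : ℂ) ^ (x.1.1 + 1) * q ^ e2 x) :=
  summable_gen q hq _ _ (fun x => by rw [norm_neg_one_pow]; norm_num)
    (fun x => (he1 x).trans (by unfold e2; omega))

theorem Ysum (q : ℂ) (hq : ‖q‖ < 1) :
    ∑' p : ℕ × ℕ, (-q) ^ (2 * (p.1 + 1) * (p.2 + 1) + (p.1 + 1)) /
          ((1 + q ^ (p.2 + 1)) * (1 - q ^ (2 * p.1 + 1))) =
      ∑' x : I4, ((-1 : ℂ) ^ (x.1.1 + 1) * q ^ e1 x - (-1 : ℂ) ^ (x.1.1 + 1) * q ^ e2 x) := by
  have hs := (summable_G1 q hq).sub (summable_G2 q hq)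
  rw [hs.tsum_prod]
  refine tsum_congr fun p => ?_
  obtain ⟨m, n⟩ := p
  dsimp only
  have hlt : ∀ j : ℕ, 0 < j → ‖q ^ j‖ < 1 := by
    intro j hj
    rw [norm_pow]
    exact pow_lt_one₀ (norm_nonneg _) hq hj.ne'
  have hne : ∀ z : ℂ, ‖z‖ < 1 → 1 - z ≠ 0 := by
    intro z hz h
    have : z = 1 := by linear_combination -h
    rw [this] at hz
    simp at hz
  have hne' : ∀ z : ℂ, ‖z‖ < 1 → 1 + z ≠ 0 := by
    intro z hz h
    have : z = -1 := by linear_combination h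
    rw [this] at hz
    simp at hz
  have hg1 := tsum_geometric_of_norm_lt_one (hlt (2 * m + 1) (by omega))
  have hg2 := tsum_geometric_of_norm_lt_one (hlt (2 * (n + 1)) (by omega))
  have hsn1 : Summable (fun k : ℕ => ‖(q ^ (2 * m + 1)) ^ k‖) := by
    simp_rw [norm_pow (q ^ (2 * m + 1))]
    exact summable_geometric_of_lt_one (norm_nonneg _) (hlt (2 * m + 1) (by omega))
  have hsn2 : Summable (fun k : ℕ => ‖(q ^ (2 * (n + 1))) ^ k‖) := by
    simp_rw [norm_pow (q ^ (2 * (n + 1)))]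
    exact summable_geometric_of_lt_one (norm_nonneg _) (hlt (2 * (n + 1)) (by omega))
  have hprod := tsum_mul_tsum_of_summable_norm hsn1 hsn2
  rw [hg1, hg2] at hprod
  have hterm : ∀ r : ℕ × ℕ, ((-1 : ℂ) ^ (m + 1) * q ^ e1 ((m, n), r) -
      (-1 : ℂ) ^ (m + 1) * q ^ e2 ((m, n), r)) =
      ((-1 : ℂ) ^ (m + 1) * q ^ ((m + 1) * (2 * n + 3)) * (1 - q ^ (n + 1))) *
        ((q ^ (2 * m + 1)) ^ r.1 * (q ^ (2 * (n + 1))) ^ r.2) := by
    intro r
    unfold e2 e1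
    dsimp only
    rw [pow_add q _ (n + 1), pow_add q _ (2 * (n + 1) * r.2), pow_add q _ ((2 * m + 1) * r.1),
      pow_mul q (2 * m + 1), pow_mul q (2 * (n + 1))]
    ring
  rw [tsum_congr hterm, tsum_mul_left, ← hprod]
  have h1 := hne _ (hlt (2 * m + 1) (by omega))
  have h2 := hne _ (hlt (2 * (n + 1)) (by omega))
  have h3 := hne' _ (hlt (n + 1) (by omega))
  have h4 : (-q) ^ (2 * (m + 1) * (n + 1) + (m + 1)) = (-1 : ℂ) ^ (m + 1) * q ^ ((m + 1) * (2 * n + 3)) := by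
    rw [neg_pow q]
    have e3 : (m + 1) * (2 * n + 3) = 2 * (m + 1) * (n + 1) + (m + 1) := by ring
    have e4 : (-1 : ℂ) ^ (2 * (m + 1) * (n + 1) + (m + 1)) = (-1) ^ (m + 1) := by
      rw [pow_add, mul_assoc 2, pow_mul]
      simp
    rw [e3, e4]
  have h5 : 1 - q ^ (2 * (n + 1)) = (1 - q ^ (n + 1)) * (1 + q ^ (n + 1)) := by ring
  rw [h4]
  rw [h5] at h2 ⊢
  have h6 := left_ne_zero_of_mul h2
  field_simp

/-- For every complex q with ∣q∣<1, let Y(q) be the sum over m,n≥1 of (-q)^(2mn+m)/((1+q^n)(1-q^(2m-1))). Then Y(-q) = -Y(q), i.e. Y is an odd function. -/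
theorem result :
    ∀ q : ℂ, ‖q‖ < 1 →
      (∑' p : ℕ × ℕ, (-(-q)) ^ (2 * (p.1 + 1) * (p.2 + 1) + (p.1 + 1)) /
          ((1 + (-q) ^ (p.2 + 1)) * (1 - (-q) ^ (2 * p.1 + 1))))
        = -(∑' p : ℕ × ℕ, (-q) ^ (2 * (p.1 + 1) * (p.2 + 1) + (p.1 + 1)) /
          ((1 + q ^ (p.2 + 1)) * (1 - q ^ (2 * p.1 + 1)))) := by
  intro q hq
  have hq' : ‖-q‖ < 1 := by rwa [norm_neg]
  rw [Ysum q hq, Ysum (-q) hq']
  rw [eq_neg_iff_add_eq_zero]
  have hs := (summable_G1 q hq).sub (summable_G2 q hq)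
  have hs' := (summable_G1 (-q) hq').sub (summable_G2 (-q) hq')
  rw [← hs'.tsum_add hs]
  have hc := core q hq
  have hsA : Summable (fun x : I4 => E q ((x.1.1, x.1.2), (x.2.1, x.1.1 + x.2.2))) := by
    refine (summable_E q hq).comp_injective
      (i := fun x : I4 => (((x.1.1, x.1.2), (x.2.1, x.1.1 + x.2.2)) : I4)) ?_
    rintro ⟨⟨m, n⟩, ⟨k, c⟩⟩ ⟨⟨m', n'⟩, ⟨k', c'⟩⟩ h
    simp only [Prod.mk.injEq] at h ⊢
    omega
  have hsB : Summable (fun x : I4 => E q ((x.1.1, x.1.2), (x.2.1 + x.1.2 + 1, x.2.2))) := by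
    refine (summable_E q hq).comp_injective
      (i := fun x : I4 => (((x.1.1, x.1.2), (x.2.1 + x.1.2 + 1, x.2.2)) : I4)) ?_
    rintro ⟨⟨m, n⟩, ⟨k, c⟩⟩ ⟨⟨m', n'⟩, ⟨k', c'⟩⟩ h
    simp only [Prod.mk.injEq] at h ⊢
    omega
  have hd : ∑' x : I4, (E q ((x.1.1, x.1.2), (x.2.1 + x.1.2 + 1, x.2.2)) -
      E q ((x.1.1, x.1.2), (x.2.1, x.1.1 + x.2.2))) = 0 := by
    rw [hsB.tsum_sub hsA, hc, sub_self]
  rw [← hd]
  refine tsum_congr fun x => ?_
  obtain ⟨⟨m, n⟩, ⟨k, c⟩⟩ := x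
  unfold E e2 e1
  dsimp only
  have ea : (m + 1) * (2 * n + 3) + (2 * m + 1) * k + 2 * (n + 1) * c =
      2 * m * k + m + k + 1 + 2 * (n + 1) * (m + c + 1) := by ring
  have eb : (m + 1) * (2 * n + 3) + (2 * m + 1) * k + 2 * (n + 1) * c + (n + 1) =
      2 * m * (k + n + 1) + m + (k + n + 1) + 1 + 2 * (n + 1) * (c + 1) := by ring
  rw [eb, ea]
  have hpar : ∀ u v w : ℕ, (-1 : ℂ) ^ (2 * u * v + u + v + 1 + 2 * (n + 1) * w) =
      (-1) ^ (u + v + 1) := by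
    intro u v w
    have : 2 * u * v + u + v + 1 + 2 * (n + 1) * w = 2 * (u * v + (n + 1) * w) + (u + v + 1) := by
      ring
    rw [this, pow_add, pow_mul]
    simp
  rw [neg_pow q, neg_pow q, hpar, hpar]
  ring

end Pool.Agent.S16733
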