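-- Proof of the frozen statement S19341 (problem MP_57c4e5_pr).
import Pool.Statements.S19341
import Pool.Agent.V7H97.Final

set_option autoImplicit false
open Pool Pool.MP_57c4e5_pr

namespace Pool.Agent.S19341

open Pool.Agent.V7H97.Chain in
theorem ham_eq (α : ℝ) (φ : ℤ → ℤ) :
    (∑' p : ℤ × ℤ, (if p.1 = p.2 then (0 : ℝ)
      else ((|p.1 - p.2| : ℤ) : ℝ) ^ (-α) * ((φ p.1 : ℝ) - (φ p.2 : ℝ)) ^ 2)) =
      Bil α (re φ) (re φ) := by
  unfold Bil
  refine tsum_congr fun p => ?_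
  unfold g re
  by_cases h : p.1 = p.2
  · rw [if_pos h, if_pos (sub_eq_zero.2 h), zero_mul]
  · rw [if_neg h, if_neg (sub_ne_zero.2 h), sq]

/-- For every α in (2,3) and every β>0, the integer-valued chain on [-N,N] with zero boundary and weight exp(-β Σ_{x≠y} ∣x-y∣^(-α)(φx-φy)²) has variance of φ at 0 tending to infinity as N grows. -/
theorem result :
    ∀ α : ℝ, 2 < α → α < 3 → ∀ β : ℝ, 0 < β →
      Filter.Tendsto
        (fun N : ℕ =>
          (∑' φ : {φ : ℤ → ℤ // ∀ x : ℤ, (N : ℤ) < |x| → φ x = 0},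
              ((φ.1 0 : ℝ)) ^ 2 *
                Real.exp (-β * ∑' p : ℤ × ℤ,
                  (if p.1 = p.2 then (0 : ℝ)
                   else ((|p.1 - p.2| : ℤ) : ℝ) ^ (-α) *
                     ((φ.1 p.1 : ℝ) - (φ.1 p.2 : ℝ)) ^ 2))) /
          (∑' φ : {φ : ℤ → ℤ // ∀ x : ℤ, (N : ℤ) < |x| → φ x = 0},
              Real.exp (-β * ∑' p : ℤ × ℤ,
                (if p.1 = p.2 then (0 : ℝ)
                 else ((|p.1 - p.2| : ℤ) : ℝ) ^ (-α) *
                   ((φ.1 p.1 : ℝ) - (φ.1 p.2 : ℝ)) ^ 2))))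
        Filter.atTop Filter.atTop := by
  intro α h2 h3 β hβ
  obtain ⟨c, hc, hmain⟩ := Pool.Agent.V7H97.Chain.main α β h2 h3 hβ
  have hlim : Filter.Tendsto (fun N : ℕ => c * ((N : ℝ) + 1) ^ (α - 2)) Filter.atTop
      Filter.atTop := by
    refine Filter.Tendsto.const_mul_atTop hc ?_
    refine (tendsto_rpow_atTop (by linarith)).comp ?_
    exact Filter.tendsto_atTop_add_const_right _ _ tendsto_natCast_atTop_atTop
  refine Filter.tendsto_atTop_mono (fun N => ?_) hlim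
  obtain ⟨hW, hU⟩ := Pool.Agent.V7H97.Chain.summable_W α β (by linarith) hβ N
  have hpos : 0 < ∑' φ : Pool.Agent.V7H97.Chain.S N,
      Real.exp (-(β * Pool.Agent.V7H97.Chain.Bil α (Pool.Agent.V7H97.Chain.re φ.1)
        (Pool.Agent.V7H97.Chain.re φ.1))) :=
    hW.tsum_pos (fun φ => (Real.exp_pos _).le) 0 (Real.exp_pos _)
  have h := hmain N
  rw [← le_div_iff₀ hpos] at h
  refine h.trans (le_of_eq ?_)
  simp only [ham_eq, neg_mul]
  rfl

end Pool.Agent.S19341
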